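import Pool.Agent.R580.AT.Grad

set_option autoImplicit false

/-!
# The Atiyah conjecture and the direct powers of a torsion-free group

The dimensions of the kernels of the matrices over the group rings of the direct powers `G ^ k` of
one torsion-free group `G` are closed under products. So weak forms of the Atiyah conjecture for
the powers (denominators or gaps which grow less than exponentially) give the conjecture for `G`.
-/

noncomputable section

namespace Pool.Agent.Results.MP_95030e_al.DirectPowers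

/-- The kernel of right multiplication by the matrix `A` on `ℓ²(G)^m`. -/
def kernel {G : Type} [Group G] {m n : ℕ} (A : Matrix (Fin m) (Fin n) (G →₀ ℂ)) :
    Set (lp (fun _ : Fin m × G => ℂ) 2) :=
  {x | ∀ (j : Fin n) (g : G),
    ∑ i : Fin m, (A i j).sum (fun h c => x (i, g * h⁻¹) * c) = 0}

open Classical in
/-- The von Neumann dimension of this kernel: the sum over `i` of one minus the squared distance
from the basis vector at `(i, 1)` to the kernel, that is, the trace of the projection onto the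
kernel. -/
def kerDim {G : Type} [Group G] {m n : ℕ} (A : Matrix (Fin m) (Fin n) (G →₀ ℂ)) : ℝ :=
  ∑ i : Fin m, (1 - (Metric.infDist
    (lp.single 2 (i, (1 : G)) (1 : ℂ) : lp (fun _ : Fin m × G => ℂ) 2) (kernel A)) ^ 2)

/-- The set of the dimensions of the kernels of all matrices over the group ring `R[G]`, where `R`
is a subring of `ℂ`. -/
def Dims (R : Subring ℂ) (G : Type) [Group G] : Set ℝ :=
  {v | ∃ (m n : ℕ) (A : Matrix (Fin m) (Fin n) (G →₀ ℂ)), (∀ i j g, A i j g ∈ R) ∧ kerDim A = v}

open Pool.Agent Pool.Agent.R580.AT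

theorem mem_dims {R : Subring ℂ} {G : Type} [Group G] {v : ℝ} :
    v ∈ Dims R G ↔ W656.VA.Val R G v := by
  constructor
  · rintro ⟨m, n, A, hA, rfl⟩
    exact W656.VA.val_kerDim A hA
  · intro h
    exact W656.VA.exists_kerDim h

/-- Let `G` be a torsion-free group and `R` a subring of `ℂ`, for example `ℤ`, `ℚ` or `ℂ`.

1. Let `N` be a positive integer which is not divisible by the `k`-th power of a prime, for example
   `N < 2 ^ k`. If `N v` is an integer for all kernel dimensions `v` over `R[G ^ k]`, then all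
   kernel dimensions over `R[G]` are integers.
2. The following are equivalent: all kernel dimensions over `R[G ^ k]` are integers, for all
   `k ≥ 1`; for infinitely many `k` the fractional parts of the kernel dimensions over `R[G ^ k]`
   avoid one and the same nonempty open interval; for every `c > 1` there are infinitely many `k`
   such that the kernel dimensions over `R[G ^ k]` have a common denominator `N ≤ c ^ k`.
3. Assume that for all `m` and all `c < 1` there is `k ≥ 1` such that no kernel dimension over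
   `R[(G * F) ^ k]`, where `F` is free of rank `m`, lies strictly between `0` and `c ^ k`. Then all
   kernel dimensions over `R[G]` are integers.
4. If `G × G` embeds in `G`, the kernel dimensions over `R[G]` are integers or dense modulo `1`. -/
theorem result (G : Type) [Group G] (hG : ∀ g : G, ∀ n : ℕ, 0 < n → g ^ n = 1 → g = 1)
    (R : Subring ℂ) :
    (∀ k N : ℕ, 0 < N → (∀ p : ℕ, p.Prime → ¬ p ^ k ∣ N) →
      (∀ v ∈ Dims R (Fin k → G), ∃ z : ℤ, N * v = z) → ∀ v ∈ Dims R G, ∃ z : ℤ, v = z) ∧
    List.TFAE [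
      ∀ k : ℕ, 0 < k → ∀ v ∈ Dims R (Fin k → G), ∃ z : ℤ, v = z,
      ∃ a b : ℝ, 0 ≤ a ∧ a < b ∧ b ≤ 1 ∧ ∀ K : ℕ, ∃ k : ℕ, K ≤ k ∧
        ∀ v ∈ Dims R (Fin k → G), Int.fract v ∉ Set.Ioo a b,
      ∀ c : ℝ, 1 < c → ∀ K : ℕ, ∃ k N : ℕ, K ≤ k ∧ 0 < N ∧ (N : ℝ) ≤ c ^ k ∧
        ∀ v ∈ Dims R (Fin k → G), ∃ z : ℤ, N * v = z] ∧
    ((∀ (m : ℕ) (c : ℝ), 0 < c → c < 1 → ∃ k : ℕ, 0 < k ∧
        ∀ v ∈ Dims R (Fin k → Monoid.Coprod G (FreeGroup (Fin m))), v ∉ Set.Ioo 0 (c ^ k)) →
      ∀ v ∈ Dims R G, ∃ z : ℤ, v = z) ∧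
    (∀ f : G × G →* G, Function.Injective f → (∃ v ∈ Dims R G, ¬ ∃ z : ℤ, v = z) →
      ∀ a b : ℝ, 0 ≤ a → a < b → b ≤ 1 → ∃ v ∈ Dims R G, Int.fract v ∈ Set.Ioo a b) := by
  simp only [mem_dims]
  have hlcm : W656.VA.IsLcm G 1 := W656.VA.isLcm_one hG
  refine ⟨?_, ?_, ?_, ?_⟩
  · intro k N hN hp h v hv
    have := int_of_free 1 k N one_pos hN hp (fun v hv => by
      obtain ⟨z, hz⟩ := h v hv
      exact ⟨z, by rw [← hz]; simp⟩) v hv
    simpa using this
  · tfae_have 1 → 2 := by
      intro h
      refine ⟨0, 1, le_rfl, one_pos, le_rfl, fun K => ⟨K + 1, by omega, fun v hv hf => ?_⟩⟩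
      obtain ⟨z, rfl⟩ := h (K + 1) (by omega) v hv
      rw [Int.fract_intCast] at hf
      exact lt_irrefl _ hf.1
    tfae_have 2 → 1 := by
      rintro ⟨a, b, ha, hab, hb, h⟩ k _ v hv
      by_contra hz
      obtain ⟨K, hK⟩ := dense_scaled hlcm hv (by simpa using hz) a b ha hab hb
      obtain ⟨l, hl, hl'⟩ := h K
      obtain ⟨x, hx, hx'⟩ := hK l hl
      rw [Nat.cast_one, one_pow, one_mul] at hx'
      exact hl' x hx hx'
    tfae_have 1 → 3 := by
      intro h c hc K
      refine ⟨K + 1, 1, by omega, one_pos, ?_, fun v hv => ?_⟩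
      · rw [Nat.cast_one]
        exact one_le_pow₀ hc.le
      · rw [Nat.cast_one, one_mul]
        exact h (K + 1) (by omega) v hv
    tfae_have 3 → 1 := by
      intro h k hk v hv
      have := int_of_subexp (R := R) (G := G) 1 one_pos (fun c hc K => by
        obtain ⟨k, N, h1, h2, h3, h4⟩ := h c hc K
        refine ⟨k, N, h1, h2, h3, fun v hv => ?_⟩
        obtain ⟨z, hz⟩ := h4 v hv
        exact ⟨z, by rw [← hz]; simp⟩) k hk v hv
      simpa using this
    tfae_finish
  · intro h v hv
    have := int_of_gap hlcm (fun m c h0 h1 => by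
      obtain ⟨k, hk, h2⟩ := h m c h0 h1
      refine ⟨k, hk, fun v hv hv0 => ?_⟩
      have h3 := h2 v hv
      by_contra hlt
      push Not at hlt
      rw [Nat.cast_one, one_pow, one_mul] at hlt
      exact h3 ⟨hv0, hlt⟩) v hv
    simpa using this
  · rintro f hf ⟨v, hv, hz⟩ a b ha hab hb
    obtain ⟨x, hx, hx'⟩ := dense_self f hf hv hz a b ha hab hb
    exact ⟨x, hx, hx'⟩

end Pool.Agent.Results.MP_95030e_al.DirectPowers
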