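import Pool.Agent.R719.AT.AlgR
import Pool.Agent.R719.AT.Shp

set_option autoImplicit false

/-!
# The Atiyah conjecture and diagonally dominant matrices over torsion-free groups

Over a torsion-free group the kernel of a weakly diagonally dominant matrix over the complex group
ring is free, of rank the von Neumann dimension of the kernel on `ℓ²`, which is therefore an
integer. For every `c > 1` the Atiyah conjecture for a torsion-free group is a statement about its
square integer matrices which are `c`-dominant by rows and by columns.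
-/

noncomputable section

namespace Pool.Agent.Results.MP_95030e_al.DominantMatrices

/-- The kernel of right multiplication by the matrix `A` on `ℓ²(G)^m`. -/
def kernel {G : Type} [Group G] {m n : ℕ} (A : Matrix (Fin m) (Fin n) (MonoidAlgebra ℂ G)) :
    Set (lp (fun _ : Fin m × G => ℂ) 2) :=
  {x | ∀ (j : Fin n) (g : G),
    ∑ i : Fin m, (A i j).coeff.sum (fun h c => x (i, g * h⁻¹) * c) = 0}

open Classical in
/-- The von Neumann dimension of this kernel: the sum over `i` of one minus the squared distance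
from the basis vector at `(i, 1)` to the kernel, that is, the trace of the projection onto the
kernel. -/
def kerDim {G : Type} [Group G] {m n : ℕ} (A : Matrix (Fin m) (Fin n) (MonoidAlgebra ℂ G)) : ℝ :=
  ∑ i : Fin m, (1 - (Metric.infDist
    (lp.single 2 (i, (1 : G)) (1 : ℂ) : lp (fun _ : Fin m × G => ℂ) 2) (kernel A)) ^ 2)

/-- The sum of the absolute values of the coefficients. -/
def mass {G : Type} (x : MonoidAlgebra ℂ G) : ℝ := x.coeff.sum fun _ c => ‖c‖

/-- In every row and every column of the square matrix `B` the sum of the absolute values of all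
the other coefficients is at most `c` times the absolute value of the coefficient of the identity
in the diagonal entry. -/
def Dominant {G : Type} [Group G] (c : ℝ) {k : ℕ}
    (B : Matrix (Fin k) (Fin k) (MonoidAlgebra ℂ G)) : Prop :=
  (∀ i, ∑ j, mass (B i j) ≤ (1 + c) * ‖(B i i).coeff 1‖) ∧
    ∀ j, ∑ i, mass (B i j) ≤ (1 + c) * ‖(B j j).coeff 1‖

open Pool.Agent.R719.AT TH57.Thr.Ati

theorem kerDim_kap {G : Type} [Group G] {m n : ℕ}
    (A : Matrix (Fin m) (Fin n) (MonoidAlgebra ℂ G)) : kerDim A = kap A :=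
  (kerC_dim A).symm ▸ rfl

/-- every matrix has the kernel dimension, up to an integer, of a `c`-dominant matrix -/
theorem reduction {G : Type} [Group G] (c : ℝ) (hc : 1 < c) {m n : ℕ}
    (A : Matrix (Fin m) (Fin n) (MonoidAlgebra ℂ G)) :
    ∃ (k : ℕ) (B : Matrix (Fin k) (Fin k) (MonoidAlgebra ℂ G)), Dominant c B ∧
      (∀ R : Subring ℂ, (∀ i j g, (A i j).coeff g ∈ R) → ∀ i j g, (B i j).coeff g ∈ R) ∧
      kerDim B = n + kerDim A := by
  obtain ⟨s, h1, h2, h3⟩ := exists_dom A c hc
  let e : Fin (Fintype.card ((Fin m ⊕ Fin n) ⊕ (Fin m ⊕ Fin n)))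
    ≃ (Fin m ⊕ Fin n) ⊕ (Fin m ⊕ Fin n) := (Fintype.equivFin _).symm
  let B' : Matrix (Fin (Fintype.card ((Fin m ⊕ Fin n) ⊕ (Fin m ⊕ Fin n))))
      (Fin (Fintype.card ((Fin m ⊕ Fin n) ⊕ (Fin m ⊕ Fin n)))) (MonoidAlgebra ℂ G) :=
    (Bs (sq A) s).submatrix e e
  refine ⟨_, B', ⟨fun i => ?_, fun j => ?_⟩, ?_, ?_⟩
  · refine le_trans (le_of_eq ?_) (h2 (e i))
    exact e.sum_comp fun j => n1 (Bs (sq A) s (e i) j)
  · refine le_trans (le_of_eq ?_) (h3 (e j))
    exact e.sum_comp fun i => n1 (Bs (sq A) s i (e j))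
  · intro R hR i j g
    exact Bs_coeff A s R hR (e i) (e j) g
  · rw [kerDim_kap, kerDim_kap, kap_re, h1, Fintype.card_fin]
    ring

/-- clearing denominators -/
theorem clear {G : Type} [Group G] {m n : ℕ} (A : Matrix (Fin m) (Fin n) (MonoidAlgebra ℂ G))
    (hA : ∀ i j g, ∃ q : ℚ, (A i j).coeff g = q) :
    ∃ A' : Matrix (Fin m) (Fin n) (MonoidAlgebra ℂ G),
      (∀ i j g, (A' i j).coeff g ∈ (Int.castRingHom ℂ).range) ∧ kap A' = kap A := by
  classical
  choose q hq using hA
  let N : ℕ := ∏ i, ∏ j, ∏ g ∈ (A i j).coeff.support, (q i j g).den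
  have hN : N ≠ 0 := Finset.prod_ne_zero_iff.2 fun i _ => Finset.prod_ne_zero_iff.2 fun j _ =>
    Finset.prod_ne_zero_iff.2 fun g _ => (q i j g).den_nz
  have hdvd : ∀ i j g, (A i j).coeff g ≠ 0 → (q i j g).den ∣ N := by
    intro i j g hg
    exact ((Finset.dvd_prod_of_mem _ (Finsupp.mem_support_iff.2 hg)).trans
      (Finset.dvd_prod_of_mem (fun j => ∏ g ∈ (A i j).coeff.support, (q i j g).den)
        (Finset.mem_univ j))).trans
      (Finset.dvd_prod_of_mem (fun i => ∏ j, ∏ g ∈ (A i j).coeff.support, (q i j g).den)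
        (Finset.mem_univ i))
  have hN' : (N : ℂ) ≠ 0 := by exact_mod_cast hN
  let D : Matrix (Fin n) (Fin n) (MonoidAlgebra ℂ G) :=
    Matrix.diagonal fun _ => MonoidAlgebra.single 1 (N : ℂ)
  let D' : Matrix (Fin n) (Fin n) (MonoidAlgebra ℂ G) :=
    Matrix.diagonal fun _ => MonoidAlgebra.single 1 ((N : ℂ)⁻¹)
  have hDD : D * D' = 1 := by
    simp only [D, D']
    rw [Matrix.diagonal_mul_diagonal, ← Matrix.diagonal_one]
    congr 1
    funext j
    rw [MonoidAlgebra.single_mul_single, mul_one, mul_inv_cancel₀ hN', MonoidAlgebra.one_def]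
  refine ⟨A * D, ?_, kap_unit_right A hDD⟩
  intro i j g
  simp only [D]
  rw [Matrix.mul_diagonal, MonoidAlgebra.coeff_mul_single_apply, inv_one, mul_one]
  by_cases hg : (A i j).coeff g = 0
  · rw [hg, zero_mul]
    exact zero_mem _
  · obtain ⟨k, hk⟩ := hdvd i j g hg
    refine ⟨(q i j g).num * k, ?_⟩
    rw [hq, hk]
    have h1 : (((q i j g).den : ℚ) : ℂ) ≠ 0 := by
      exact_mod_cast (q i j g).den_nz
    have h2 : ((q i j g : ℚ) : ℂ) * ((q i j g).den : ℂ) = ((q i j g).num : ℂ) := by
      have := Rat.mul_den_eq_num (q i j g)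
      exact_mod_cast this
    push_cast
    rw [← mul_assoc, h2]
    simp

/-- Let `G` be a torsion-free group.

1. Let `A` be an `m × n` matrix over the complex group ring, dominated by rows: for every `i` the
   coefficient at `γ i` in the entry `A i (σ i)`, where `σ` is injective, has absolute value at
   least the sum of the absolute values of all the other coefficients in the row `i`, where the
   coefficients in column `j` are weighted with `p j > 0`. Then there is a set `R` of
   `dim ker A` rows such that each family `z`, indexed by `R`, of elements of the group ring is the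
   restriction to `R` of exactly one row vector `y` over the group ring with `y A = 0`. In
   particular the kernel over the group ring is free of rank `dim ker A`, and `dim ker A` is an
   integer.
2. If `A` is dominated by columns in the same sense, then `dim ker A` is an integer.
3. Let `c > 1`. Then `dim ker A` is an integer for all matrices `A` over the rational group ring of
   `G` if and only if `dim ker B` is an integer for all square matrices `B` over the integral
   group ring which are `c`-dominant by rows and by columns. -/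
theorem result (G : Type) [Group G] (htf : ∀ g : G, ∀ n : ℕ, 0 < n → g ^ n = 1 → g = 1) :
    (∀ (m n : ℕ) (A : Matrix (Fin m) (Fin n) (MonoidAlgebra ℂ G)) (σ : Fin m → Fin n)
      (γ : Fin m → G) (p : Fin n → ℝ), Function.Injective σ → (∀ j, 0 < p j) →
      (∀ i, ∑ j, p j * mass (A i j) ≤ 2 * (p (σ i) * ‖(A i (σ i)).coeff (γ i)‖)) →
        ∃ R : Finset (Fin m), kerDim A = R.card ∧
          ∀ z : Fin m → MonoidAlgebra ℂ G, ∃! y : Fin m → MonoidAlgebra ℂ G,
            Matrix.vecMul y A = 0 ∧ ∀ i ∈ R, y i = z i) ∧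
    (∀ (m n : ℕ) (A : Matrix (Fin m) (Fin n) (MonoidAlgebra ℂ G)) (τ : Fin n → Fin m)
      (γ : Fin n → G) (q : Fin m → ℝ), Function.Injective τ → (∀ i, 0 < q i) →
      (∀ j, ∑ i, q i * mass (A i j) ≤ 2 * (q (τ j) * ‖(A (τ j) j).coeff (γ j)‖)) →
        ∃ d : ℤ, kerDim A = d) ∧
    ∀ c : ℝ, 1 < c →
      ((∀ (m n : ℕ) (A : Matrix (Fin m) (Fin n) (MonoidAlgebra ℂ G)),
        (∀ i j g, ∃ q : ℚ, (A i j).coeff g = q) → ∃ d : ℤ, kerDim A = d) ↔
      ∀ (k : ℕ) (B : Matrix (Fin k) (Fin k) (MonoidAlgebra ℂ G)),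
        (∀ i j g, ∃ z : ℤ, (B i j).coeff g = z) → Dominant c B → ∃ d : ℤ, kerDim B = d) := by
  refine ⟨?_, ?_, ?_⟩
  · intro m n A σ γ p hσ hp hA
    obtain ⟨R, h1, h2⟩ := alg_rows htf A σ γ p ⟨hσ, hp, hA⟩
    exact ⟨R, (kerDim_kap A).trans h1, h2⟩
  · intro m n A τ γ q hτ hq hA
    obtain ⟨s, H, hs, hH, hk⟩ := kap_cols A τ γ q hτ hq hA
    refine ⟨s, ?_⟩
    rw [kerDim_kap, hk]
    have h1 : ∀ i, (Nat.card (H i) : ℝ)⁻¹ = 1 := by
      intro i
      have := hH i
      have hbot : H i = ⊥ := by
        rw [Subgroup.eq_bot_iff_forall]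
        intro g hg
        have hfo : IsOfFinOrder (⟨g, hg⟩ : H i) := isOfFinOrder_of_finite _
        obtain ⟨n, hn, h4⟩ := isOfFinOrder_iff_pow_eq_one.1 hfo
        exact htf g n hn (by simpa using congrArg Subtype.val h4)
      rw [hbot]
      simp
    rw [Finset.sum_congr rfl fun i _ => h1 i]
    simp
  · intro c hc
    constructor
    · intro h k B hB _
      exact h k k B fun i j g => by
        obtain ⟨z, hz⟩ := hB i j g
        exact ⟨z, by rw [hz]; push_cast; rfl⟩
    · intro h m n A hA
      obtain ⟨A', hA', hk'⟩ := clear A hA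
      obtain ⟨k, B, hB, hR, hk⟩ := reduction c hc A'
      obtain ⟨z, hz⟩ := h k B (fun i j g => by
        obtain ⟨z, hz⟩ := hR (Int.castRingHom ℂ).range hA' i j g
        exact ⟨z, hz.symm⟩) hB
      refine ⟨z - n, ?_⟩
      rw [hk, kerDim_kap, hk', ← kerDim_kap] at hz
      push_cast
      linarith

end Pool.Agent.Results.MP_95030e_al.DominantMatrices
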