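import Pool.Agent.R472.GridKer

set_option autoImplicit false

/-! # The Atiyah conjecture for torsion-free groups and the square grid

Let `G` be a torsion-free group with generating set `S`. Every matrix over the rational group ring has,
up to an integer, the kernel dimension of a square matrix over the integral group ring whose rows and
columns are different points of the square grid `ℤ²`, whose entries are zero except between
neighbouring points, whose nonzero entries are of the form `± s` with `s = 1`, `s ∈ S` or `s⁻¹ ∈ S`,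
with at most three of them in each row and in each column. So the Atiyah conjecture for `G` is a
statement about these matrices. If a matrix over the complex group ring has at most two nonzero
entries in each row, or in each column, all of the form `c g` with `|c| = 1`, the dimension of its
kernel is an integer.

Outline. (1) The matrix `(0, A; 0, 0)` is square, and the normal form of `MP_8f66f0_al.GridForm` holds
for every square matrix, invertible or not: `P diag(A, 1) Q` is on the grid for invertible `P`, `Q`.
(2) If each column of `A` has at most two nonzero entries `c g`, `|c| = 1`, then `A A*` is weakly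
diagonally dominant and has the same kernel as `A`; the kernel dimensions of such matrices are known
from `DominantMatrices` (helper719). -/

noncomputable section

namespace Pool.Agent.Results.MP_95030e_al.GridKernels

/-- The kernel of right multiplication by the matrix `A` on `ℓ²(G)^K`. -/
def kernel {G : Type} [Group G] {K L : Type} [Fintype K] (A : Matrix K L (MonoidAlgebra ℂ G)) :
    Set (lp (fun _ : K × G => ℂ) 2) :=
  {x | ∀ (j : L) (g : G), ∑ i : K, (A i j).coeff.sum (fun h c => x (i, g * h⁻¹) * c) = 0}

open Classical in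
/-- The von Neumann dimension of this kernel: the sum over `i` of one minus the squared distance
from the basis vector at `(i, 1)` to the kernel, that is, the trace of the projection onto the
kernel. -/
def kerDim {G : Type} [Group G] {K L : Type} [Fintype K] (A : Matrix K L (MonoidAlgebra ℂ G)) : ℝ :=
  ∑ i : K, (1 - (Metric.infDist
    (lp.single 2 (i, (1 : G)) (1 : ℂ) : lp (fun _ : K × G => ℂ) 2) (kernel A)) ^ 2)

/-- neighbouring points of the square grid -/
def Neighbours (a b : ℤ × ℤ) : Prop :=
  (a.1 = b.1 ∧ (a.2 = b.2 + 1 ∨ a.2 + 1 = b.2)) ∨ (a.2 = b.2 ∧ (a.1 = b.1 + 1 ∨ a.1 + 1 = b.1))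

/-- A matrix which is supported on a finite piece of the square grid: its rows are at the points
`ρ i`, its columns at the points `c j`, all these points are different, the entry at `i j` is zero
unless `ρ i` and `c j` are neighbours; the nonzero entries are `± s` with `s = 1`, `s ∈ S` or
`s⁻¹ ∈ S`; each row and each column has at most three of them. -/
def OnGrid {G : Type} [Group G] (S : Set G) {κ : Type} (B : Matrix κ κ (MonoidAlgebra ℂ G)) :
    Prop :=
  ∃ ρ c : κ → ℤ × ℤ, Function.Injective ρ ∧ Function.Injective c ∧ (∀ i j, ρ i ≠ c j) ∧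
    (∀ i j, B i j ≠ 0 → Neighbours (ρ i) (c j)) ∧
    (∀ i j, B i j = 0 ∨ ∃ s : G, (s = 1 ∨ s ∈ S ∨ s⁻¹ ∈ S) ∧
      (B i j = MonoidAlgebra.single s 1 ∨ B i j = MonoidAlgebra.single s (-1))) ∧
    (∀ i, {j | B i j ≠ 0}.ncard ≤ 3) ∧ (∀ j, {i | B i j ≠ 0}.ncard ≤ 3)

/-- all nonzero entries are of the form `c g` with `g ∈ G`, `c ∈ ℂ`, `|c| = 1` -/
def UnitMonomials {G : Type} [Group G] {K L : Type} (A : Matrix K L (MonoidAlgebra ℂ G)) : Prop :=
  ∀ i j, A i j = 0 ∨ ∃ (g : G) (c : ℂ), ‖c‖ = 1 ∧ A i j = MonoidAlgebra.single g c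

open Pool.Agent.R719.AT TH57.Thr.Ati Pool.Agent.R472.Grid

theorem kerDim_kap {G : Type} [Group G] {K L : Type} [Fintype K] [Fintype L] [i1 : DecidableEq K]
    [DecidableEq L] (A : Matrix K L (MonoidAlgebra ℂ G)) : kerDim A = kap A := by
  have h : i1 = fun a b => Classical.propDecidable (a = b) := Subsingleton.elim _ _
  rw [← kerC_dim A]
  subst h
  rfl

theorem sum_int {G : Type} [Group G] (htf : ∀ g : G, ∀ n : ℕ, 0 < n → g ^ n = 1 → g = 1) {s : ℕ}
    (H : Fin s → Subgroup G) (hH : ∀ i, Finite (H i)) :
    ∑ i, (Nat.card (H i) : ℝ)⁻¹ = s := by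
  have h1 : ∀ i, (Nat.card (H i) : ℝ)⁻¹ = 1 := by
    intro i
    have := hH i
    have hbot : H i = ⊥ := by
      rw [Subgroup.eq_bot_iff_forall]
      intro g hg
      have hfo : IsOfFinOrder (⟨g, hg⟩ : H i) := isOfFinOrder_of_finite _
      obtain ⟨n, hn, h4⟩ := isOfFinOrder_iff_pow_eq_one.1 hfo
      exact htf g n hn (by simpa using congrArg Subtype.val h4)
    rw [hbot]
    simp
  rw [Finset.sum_congr rfl fun i _ => h1 i]
  simp

/-- Let `G` be a torsion-free group and `S` a set of generators of `G`.

(1) For every matrix `A` (rows `K`, columns `L`) over the integral group ring there is a matrix `B`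
on the grid with `dim ker B = |L| + dim ker A`.
(2) `dim ker A` is an integer for all matrices `A` over the rational group ring (the Atiyah conjecture
for `G`) if and only if `dim ker B` is an integer for all matrices `B` on the grid.
(3) Three cannot be replaced by two: `dim ker A` is an integer for all matrices `A` over the complex
group ring with entries `0` and `c g`, `|c| = 1` (no condition on the positions) and at most two
nonzero entries in each row, or at most two in each column. -/
theorem result (G : Type) [Group G] (htf : ∀ g : G, ∀ n : ℕ, 0 < n → g ^ n = 1 → g = 1)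
    (S : Set G) (hS : Subgroup.closure S = ⊤) :
    (∀ (K L : Type) [Fintype K] [Fintype L] (A : Matrix K L (MonoidAlgebra ℂ G)),
      (∀ i j g, ∃ z : ℤ, (A i j).coeff g = z) →
      ∃ (κ : Type) (_ : Fintype κ) (B : Matrix κ κ (MonoidAlgebra ℂ G)),
        OnGrid S B ∧ kerDim B = Fintype.card L + kerDim A) ∧
    ((∀ (m n : ℕ) (A : Matrix (Fin m) (Fin n) (MonoidAlgebra ℂ G)),
        (∀ i j g, ∃ q : ℚ, (A i j).coeff g = q) → ∃ d : ℤ, kerDim A = d) ↔
      ∀ (κ : Type) [Fintype κ] (B : Matrix κ κ (MonoidAlgebra ℂ G)), OnGrid S B →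
        ∃ d : ℤ, kerDim B = d) ∧
    (∀ (K L : Type) [Fintype K] [Fintype L] (A : Matrix K L (MonoidAlgebra ℂ G)),
      UnitMonomials A → ((∀ i, {j | A i j ≠ 0}.ncard ≤ 2) ∨ ∀ j, {i | A i j ≠ 0}.ncard ≤ 2) →
        ∃ d : ℤ, kerDim A = d) := by
  classical
  have hgr : ∀ (κ : Type) (B : Matrix κ κ (MonoidAlgebra ℂ G)), GridG (gens S ∅) B → OnGrid S B := by
    rintro κ B ⟨ρ, c, a1, a2, a3, a4, a5, a6, a7⟩
    refine ⟨ρ, c, a1, a2, a3, a4, fun i j => ?_, a6, a7⟩
    rcases a5 i j with h | h | ⟨t, ht, _⟩
    · exact Or.inl h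
    · exact Or.inr h
    · exact absurd ht (Set.notMem_empty t)
  have key : ∀ (K L : Type) [Fintype K] [Fintype L] [DecidableEq K] [DecidableEq L]
      (A : Matrix K L (MonoidAlgebra ℂ G)),
      (∀ i j g, (A i j).coeff g ∈ Subring.closure (∅ : Set ℂ)) →
      ∃ (κ : Type) (_ : Fintype κ) (B : Matrix κ κ (MonoidAlgebra ℂ G)),
        OnGrid S B ∧ kerDim B = Fintype.card L + kap A := by
    intro K L _ _ _ _ A hA
    obtain ⟨κ, i1, i2, B, hB, hk⟩ := grid_kap (one_gens S ∅) (neg_gens S ∅) A
      (fun i j => mem_closure_gens S hS ∅ _ (hA i j))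
    exact ⟨κ, i1, B, hgr κ B hB, by rw [kerDim_kap, hk]⟩
  refine ⟨?_, ⟨?_, ?_⟩, ?_⟩
  · intro K L _ _ A hA
    obtain ⟨κ, i1, B, hB, hk⟩ := key K L A (fun i j g => by
      obtain ⟨z, hz⟩ := hA i j g
      rw [hz]
      exact intCast_mem _ z)
    exact ⟨κ, i1, B, hB, by rw [hk, kerDim_kap]⟩
  · intro h κ _ B hB
    let e : Fin (Fintype.card κ) ≃ κ := (Fintype.equivFin κ).symm
    obtain ⟨d, hd⟩ := h _ _ (B.submatrix e e) (by
      intro i j g
      obtain ⟨_, _, _, _, _, _, a5, _, _⟩ := hB
      rcases a5 (e i) (e j) with h1 | ⟨s, _, h1 | h1⟩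
      · exact ⟨0, by rw [Matrix.submatrix_apply, h1]; simp⟩
      · rw [Matrix.submatrix_apply, h1, MonoidAlgebra.coeff_single, Finsupp.single_apply]
        split_ifs
        · exact ⟨1, by simp⟩
        · exact ⟨0, by simp⟩
      · rw [Matrix.submatrix_apply, h1, MonoidAlgebra.coeff_single, Finsupp.single_apply]
        split_ifs
        · exact ⟨-1, by simp⟩
        · exact ⟨0, by simp⟩)
    rw [kerDim_kap, kap_re] at hd
    exact ⟨d, by rw [kerDim_kap, hd]⟩
  · intro h m n A hA
    obtain ⟨A', hA', hk'⟩ := clear_den ∅ A (fun i j g => by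
      obtain ⟨q, hq⟩ := hA i j g
      rw [hq]
      exact SubfieldClass.ratCast_mem _ q)
    obtain ⟨κ, i1, B, hB, hk⟩ := key (Fin m) (Fin n) A' hA'
    obtain ⟨d, hd⟩ := h κ B hB
    refine ⟨d - n, ?_⟩
    rw [hk, hk', Fintype.card_fin] at hd
    rw [kerDim_kap]
    push_cast
    linarith
  · intro K L _ _ A hA h
    rcases h with h | h
    · obtain ⟨s, H, _, hH, hk⟩ := kap_two_rows A h hA
      refine ⟨s + Fintype.card K - Fintype.card L, ?_⟩
      rw [sum_int htf H hH] at hk
      rw [kerDim_kap]
      push_cast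
      linarith
    · obtain ⟨s, H, _, hH, hk⟩ := kap_two_cols A h hA
      exact ⟨s, by rw [kerDim_kap, hk, sum_int htf H hH]; simp⟩

end Pool.Agent.Results.MP_95030e_al.GridKernels
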