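import Pool.Agent.R625.AT.Term

set_option autoImplicit false

/-!
# The Atiyah conjecture, the term rank and short closed paths

The von Neumann rank of a matrix over a complex group ring is at most its term rank `ν`, and if it
is smaller by `δ > 0`, then the graph of the matrix has a closed reduced path of length at most
`2 ν / δ`, whatever the group and the coefficients are.

Outline. The terms `a g` of the entries of `A` are the edges of a graph on which `G` acts; the
monomer-dimer recursion with a small activity gives weights `p` of the terms (all row and column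
sums are nearly `1`, when the rows can be matched) with `|a|² = p (1 - p)` after a rescaling of the
rows and columns. With these weights the energy of a vector of the kernel on the reduced paths of
length `n` from a fixed vertex does not decrease with `n`. If these paths have different ends for
all `n ≤ N`, the energy is at most the square of the norm for all of them together, so the kernel
dimension is at most `ν / (N + 1)`. The general case follows from Hall's theorem.
-/

noncomputable section

namespace Pool.Agent.Results.MP_95030e_al.TermRankAndCycles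

/-- The kernel of right multiplication by the matrix `A` on `ℓ²(G)^m`. -/
def kernel {G : Type} [Group G] {m n : ℕ} (A : Matrix (Fin m) (Fin n) (MonoidAlgebra ℂ G)) :
    Set (lp (fun _ : Fin m × G => ℂ) 2) :=
  {x | ∀ (j : Fin n) (g : G),
    ∑ i : Fin m, (A i j).coeff.sum (fun h c => x (i, g * h⁻¹) * c) = 0}

open Classical in
/-- The von Neumann dimension of this kernel: the sum over `i` of one minus the squared distance
from the basis vector at `(i, 1)` to the kernel, that is, the trace of the projection onto the
kernel. -/
def kerDim {G : Type} [Group G] {m n : ℕ} (A : Matrix (Fin m) (Fin n) (MonoidAlgebra ℂ G)) : ℝ :=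
  ∑ i : Fin m, (1 - (Metric.infDist
    (lp.single 2 (i, (1 : G)) (1 : ℂ) : lp (fun _ : Fin m × G => ℂ) 2) (kernel A)) ^ 2)

/-- The term rank: the largest number of nonzero entries of `A` in different rows and different
columns. -/
def termRank {G : Type} [Group G] {m n : ℕ} (A : Matrix (Fin m) (Fin n) (MonoidAlgebra ℂ G)) :
    ℕ :=
  sSup {r | ∃ (ρ : Fin r → Fin m) (γ : Fin r → Fin n), Function.Injective ρ ∧
    Function.Injective γ ∧ ∀ s, A (ρ s) (γ s) ≠ 0}

/-- A closed reduced path of the matrix `A`: a nonempty list of pairs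
`(e₁, f₁), (e₂, f₂), …, (e_l, f_l)` of terms of `A`, that is, of triples `(i, j, g)` for which the
coefficient of `g` in the entry `A i j` is not zero, such that `e_r ≠ f_r` are in the same column,
`f_r ≠ e_{r+1}` are in the same row, `f_l` and `e₁` are in the same row, and the product of the
elements `g(e_r) g(f_r)⁻¹` of `G` is `1`. -/
structure ClosedPath {G : Type} [Group G] {m n : ℕ}
    (A : Matrix (Fin m) (Fin n) (MonoidAlgebra ℂ G))
    (z : List ((Fin m × Fin n × G) × (Fin m × Fin n × G))) : Prop where
  nonempty : z ≠ []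
  step : ∀ p ∈ z, (A p.1.1 p.1.2.1).coeff p.1.2.2 ≠ 0 ∧ (A p.2.1 p.2.2.1).coeff p.2.2.2 ≠ 0 ∧
    p.2 ≠ p.1 ∧ p.2.2.1 = p.1.2.1
  chain : z.IsChain (fun p q => p.2.1 = q.1.1 ∧ p.2 ≠ q.1)
  closed : z.head?.map (fun p => p.1.1) = z.getLast?.map (fun p => p.2.1)
  value : (z.map (fun p => p.1.2.2 * p.2.2.2⁻¹)).prod = 1

open Pool.Agent.R625.AT TH57.Thr.Ati

theorem kerDim_kap {G : Type} [Group G] {m n : ℕ}
    (A : Matrix (Fin m) (Fin n) (MonoidAlgebra ℂ G)) : kerDim A = kap A :=
  (kerC_dim A).symm ▸ rfl

theorem cp_iff {G : Type} [Group G] {m n : ℕ} (A : Matrix (Fin m) (Fin n) (MonoidAlgebra ℂ G))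
    (z : List ((Fin m × Fin n × G) × (Fin m × Fin n × G))) : ClosedPath A z ↔ Cp A z := by
  constructor
  · rintro ⟨h1, h2, h3, h4, h5⟩
    exact ⟨h1, ⟨fun p hp => ⟨(mem_terms A _).2 (h2 p hp).1, (mem_terms A _).2 (h2 p hp).2.1,
      (h2 p hp).2.2⟩, h3⟩, h4, h5⟩
  · rintro ⟨h1, ⟨h2, h3⟩, h4, h5⟩
    exact ⟨h1, fun p hp => ⟨(mem_terms A _).1 (h2 p hp).1, (mem_terms A _).1 (h2 p hp).2.1,
      (h2 p hp).2.2⟩, h3, h4, h5⟩

/-- **The von Neumann rank, the term rank and closed paths.** Let `G` be a group and `A` an `m × n`
matrix over the complex group ring of `G`, with term rank `ν`.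

1. The von Neumann dimension of the kernel of `A` on `ℓ²(G)^m` is at least `m - ν`.
2. If all closed reduced paths of `A` are longer than `2 N`, then it is at most
   `m - ν + ν / (N + 1)`.
3. If it is not the integer `m - ν`, and `δ > 0` is the difference, then `A` has a closed reduced
   path of length at most `2 ν / δ`. -/
theorem result (G : Type) [Group G] (m n : ℕ) (A : Matrix (Fin m) (Fin n) (MonoidAlgebra ℂ G)) :
    (m : ℝ) - termRank A ≤ kerDim A ∧
    (∀ N : ℕ, (∀ z, ClosedPath A z → 2 * N < z.length) →
      kerDim A ≤ m - termRank A + termRank A / (N + 1)) ∧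
    (kerDim A ≠ m - termRank A → ∃ z, ClosedPath A z ∧
      (z.length : ℝ) * (kerDim A - (m - termRank A)) ≤ 2 * termRank A) := by
  have h1 := rank_term A
  have h2 : trk A = termRank A := rfl
  rw [h2, Fintype.card_fin] at h1
  rw [kerDim_kap]
  refine ⟨h1.1, fun N hN => h1.2.1 N fun z hz => hN z ((cp_iff A z).2 hz), fun hne => ?_⟩
  obtain ⟨z, hz1, hz2⟩ := h1.2.2 hne
  exact ⟨z, (cp_iff A z).2 hz1, hz2⟩

end Pool.Agent.Results.MP_95030e_al.TermRankAndCycles
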